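import Mathlib
import Pool.Agent.Helper64.HK.Lin

/-!
# `k + 1` factors: the polynomials of the chart

`Ap`, `Bp`, `Cp`, `Dp`: the coefficients of the equation of the line in the factor `0`, and the
determinant, as polynomials in the affine coordinates of the other factors. `NS c`: the quadratic
equation over the other factors has no root which is a rational function.
-/

namespace Pool.Agent.Helper77.HK

open Pool.Agent.Helper64.HK MvPolynomial
open Pool.Agent.Helper28.HN (I aff)

variable {k m : ℕ} {a : Fin (k + 1) → Fin (m + 1)}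

section chart

variable {K : Type*} [CommRing K]

/-- `det Mx` as a polynomial in the affine coordinates of the factors `t`. -/
noncomputable def Dp (c : Ix a → K) : MvPolynomial (Fin k × Fin (m + 1)) K :=
  (Mx (fun e => C (c e)) (ct X)).det

/-- `Ah` as a polynomial. -/
noncomputable def Ap (c : Ix a → K) : MvPolynomial (Fin k × Fin (m + 1)) K :=
  Ah (fun e => C (c e)) (ct X)

/-- `Bh` as a polynomial. -/
noncomputable def Bp (c : Ix a → K) : MvPolynomial (Fin k × Fin (m + 1)) K :=
  Bh (fun e => C (c e)) (ct X)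

/-- `Ch` as a polynomial. -/
noncomputable def Cp (c : Ix a → K) : MvPolynomial (Fin k × Fin (m + 1)) K :=
  Ch (fun e => C (c e)) (ct X)

/-- `Fh` as a polynomial. -/
noncomputable def Fp (c : Ix a → K) (z : K) : MvPolynomial (Fin k × Fin (m + 1)) K :=
  Fh (fun e => C (c e)) (ct X) (C z)

/-- The quadratic equation over the factors `t` has no root which is a rational function. -/
def NS (c : Ix a → K) : Prop :=
  ∀ r0 r1 : MvPolynomial (Fin k × Fin (m + 1)) K,
    Ap c * r0 ^ 2 - 2 * Bp c * r0 * r1 + Cp c * r1 ^ 2 = 0 → r0 = 0 ∧ r1 = 0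

variable {L : Type*} [CommRing L]

/-! ### Values -/

theorem e2_c (f : K →+* L) (u : Fin k × Fin (m + 1) → L) (c : Ix a → K) :
    (fun e => eval₂Hom f u (C (c e))) = fun e => f (c e) := by
  funext e
  simp

theorem e2_ct (f : K →+* L) (u : Fin k × Fin (m + 1) → L) :
    (fun l i => eval₂Hom f u ((ct X : Fin (k + 1) → I m →
      MvPolynomial (Fin k × Fin (m + 1)) K) l i)) = ct u := by
  rw [map_ct]
  congr 1
  funext e
  simp

theorem e2_Dp (f : K →+* L) (u : Fin k × Fin (m + 1) → L) (c : Ix a → K) :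
    eval₂Hom f u (Dp c) = (Mx (fun e => f (c e)) (ct u)).det := by
  rw [Dp, map_det_Mx, e2_c, e2_ct]

theorem e2_Ap (f : K →+* L) (u : Fin k × Fin (m + 1) → L) (c : Ix a → K) :
    eval₂Hom f u (Ap c) = Ah (fun e => f (c e)) (ct u) := by
  rw [Ap, map_Ah, e2_c, e2_ct]

theorem e2_Bp (f : K →+* L) (u : Fin k × Fin (m + 1) → L) (c : Ix a → K) :
    eval₂Hom f u (Bp c) = Bh (fun e => f (c e)) (ct u) := by
  rw [Bp, map_Bh, e2_c, e2_ct]

theorem e2_Cp (f : K →+* L) (u : Fin k × Fin (m + 1) → L) (c : Ix a → K) :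
    eval₂Hom f u (Cp c) = Ch (fun e => f (c e)) (ct u) := by
  rw [Cp, map_Ch, e2_c, e2_ct]

theorem e2_Fp (f : K →+* L) (u : Fin k × Fin (m + 1) → L) (c : Ix a → K) (z : K) :
    eval₂Hom f u (Fp c z) = Fh (fun e => f (c e)) (ct u) (f z) := by
  rw [Fp, map_Fh, e2_c, e2_ct]
  simp

theorem eval_Dp (u : Fin k × Fin (m + 1) → K) (c : Ix a → K) :
    eval u (Dp c) = (Mx c (ct u)).det := e2_Dp (RingHom.id K) u c

theorem eval_Ap (u : Fin k × Fin (m + 1) → K) (c : Ix a → K) :
    eval u (Ap c) = Ah c (ct u) := e2_Ap (RingHom.id K) u c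

theorem eval_Bp (u : Fin k × Fin (m + 1) → K) (c : Ix a → K) :
    eval u (Bp c) = Bh c (ct u) := e2_Bp (RingHom.id K) u c

theorem eval_Cp (u : Fin k × Fin (m + 1) → K) (c : Ix a → K) :
    eval u (Cp c) = Ch c (ct u) := e2_Cp (RingHom.id K) u c

theorem eval_Fp (u : Fin k × Fin (m + 1) → K) (c : Ix a → K) (z : K) :
    eval u (Fp c z) = Fh c (ct u) z := e2_Fp (RingHom.id K) u c z

section aeval

variable [Algebra K L]

theorem aeval_Dp (u : Fin k × Fin (m + 1) → L) (c : Ix a → K) :
    aeval u (Dp c) = (Mx (fun e => algebraMap K L (c e)) (ct u)).det :=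
  e2_Dp (algebraMap K L) u c

theorem aeval_Ap (u : Fin k × Fin (m + 1) → L) (c : Ix a → K) :
    aeval u (Ap c) = Ah (fun e => algebraMap K L (c e)) (ct u) := e2_Ap (algebraMap K L) u c

theorem aeval_Bp (u : Fin k × Fin (m + 1) → L) (c : Ix a → K) :
    aeval u (Bp c) = Bh (fun e => algebraMap K L (c e)) (ct u) := e2_Bp (algebraMap K L) u c

theorem aeval_Cp (u : Fin k × Fin (m + 1) → L) (c : Ix a → K) :
    aeval u (Cp c) = Ch (fun e => algebraMap K L (c e)) (ct u) := e2_Cp (algebraMap K L) u c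

theorem aeval_Fp (u : Fin k × Fin (m + 1) → L) (c : Ix a → K) (z : K) :
    aeval u (Fp c z) = Fh (fun e => algebraMap K L (c e)) (ct u) (algebraMap K L z) :=
  e2_Fp (algebraMap K L) u c z

end aeval

/-! ### Change of the ring -/

theorem mp_c (f : K →+* L) (c : Ix a → K) :
    (fun e => map (σ := Fin k × Fin (m + 1)) f (C (c e))) = fun e => C (f (c e)) := by
  funext e
  simp

theorem mp_ct (f : K →+* L) :
    (fun l i => map f ((ct X : Fin (k + 1) → I m →
      MvPolynomial (Fin k × Fin (m + 1)) K) l i)) = ct X := by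
  rw [map_ct]
  congr 1
  funext e
  simp

theorem map_Dp (f : K →+* L) (c : Ix a → K) : map f (Dp c) = Dp fun e => f (c e) := by
  rw [Dp, map_det_Mx, mp_c, mp_ct]
  rfl

theorem map_Ap (f : K →+* L) (c : Ix a → K) : map f (Ap c) = Ap fun e => f (c e) := by
  rw [Ap, map_Ah, mp_c, mp_ct]
  rfl

theorem map_Bp (f : K →+* L) (c : Ix a → K) : map f (Bp c) = Bp fun e => f (c e) := by
  rw [Bp, map_Bh, mp_c, mp_ct]
  rfl

theorem map_Cp (f : K →+* L) (c : Ix a → K) : map f (Cp c) = Cp fun e => f (c e) := by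
  rw [Cp, map_Ch, mp_c, mp_ct]
  rfl

/-! ### The quadratic polynomial -/

variable (c : Ix a → K) (X' : Fin (k + 1) → I m → K) (z : K)

theorem Fh_eq : Fh c X' z = Ah c X' * z ^ 2 + 2 * Bh c X' * z + Ch c X' := by
  have h : yh c X' z = fun l => 1 * Y0 c X' l + z * Y1 c X' l := by
    funext l
    rw [yh, one_mul]
  rw [Fh, h, Pf_comb_l, Pf_comb_r, Pf_comb_r, Pf_symm c 0 X' (Y1 c X'), Ah, Bh, Ch]
  ring

theorem Fp_eq : Fp c z = Ap c * C z ^ 2 + 2 * Bp c * C z + Cp c := by
  rw [Fp, Fh_eq]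
  rfl

end chart

/-- It is enough to look at the equation over a larger field. -/
theorem ns_of_map {K L : Type*} [Field K] [Field L] (f : K →+* L) (c : Ix a → K)
    (h : NS (fun e => f (c e))) : NS c := by
  intro r0 r1 hr
  have e := congrArg (map f) hr
  simp only [map_add, map_sub, map_mul, map_pow, map_ofNat, map_zero, map_Ap, map_Bp,
    map_Cp] at e
  obtain ⟨h0, h1⟩ := h _ _ e
  have hf := map_injective (σ := Fin k × Fin (m + 1)) f f.injective
  exact ⟨hf (by rw [h0, map_zero]), hf (by rw [h1, map_zero])⟩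

theorem Dp_ne_of_map {K L : Type*} [Field K] [Field L] (f : K →+* L) (c : Ix a → K)
    (u : Fin k × Fin (m + 1) → L) (h : (Mx (fun e => f (c e)) (ct u)).det ≠ 0) : Dp c ≠ 0 := by
  intro h0
  have e := congrArg (eval₂Hom f u) h0
  rw [map_zero, e2_Dp] at e
  exact h e

end Pool.Agent.Helper77.HK
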