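import Mathlib
import Pool.Agent.Helper77.HN.Quad

/-!
# A quadratic equation over a polynomial ring without rational roots (abstract form)

`ns_abs`: if `A`, `B`, `C` vanish at a point `u` and their differentials at `u` are linearly
independent (given by three vectors), then `A r0^2 - 2 B r0 r1 + C r1^2 = 0` has only the zero
solution in polynomials `r0`, `r1`.
-/

namespace Pool.Agent.Helper77.HK

open Pool.Agent.Helper77.HN (quad_zero descent)

variable {σ : Type*} {L : Type*} [Field L]

/-- The derivative of `P` at `u` in the direction `v`. -/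
noncomputable def dd [Fintype σ] (u v : σ → L) (P : MvPolynomial σ L) : L :=
  ∑ i, MvPolynomial.eval u (MvPolynomial.pderiv i P) * v i

/-- The direction `v + t w1 + t^2 w2`. -/
noncomputable def pth (v w1 w2 : σ → L) : σ → Polynomial L :=
  fun i => Polynomial.C (v i) + (Polynomial.X * Polynomial.C (w1 i) +
    Polynomial.X ^ 2 * Polynomial.C (w2 i))

/-- `u + s (v + t w1 + t^2 w2)`. -/
noncomputable def Ph (u v w1 w2 : σ → L) : MvPolynomial σ L →+* Polynomial (Polynomial L) :=
  MvPolynomial.eval₂Hom (Polynomial.C.comp Polynomial.C)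
    (fun i => Polynomial.C (Polynomial.C (u i)) + Polynomial.X * Polynomial.C (pth v w1 w2 i))

theorem Ph_C (u v w1 w2 : σ → L) (a : L) :
    Ph u v w1 w2 (MvPolynomial.C a) = Polynomial.C (Polynomial.C a) := by
  simp [Ph]

theorem Ph_X (u v w1 w2 : σ → L) (i : σ) : Ph u v w1 w2 (MvPolynomial.X i) =
    Polynomial.C (Polynomial.C (u i)) + Polynomial.X * Polynomial.C (pth v w1 w2 i) := by
  simp [Ph]

theorem Ph_eval (u v w1 w2 : σ → L) (r : MvPolynomial σ L) :
    ((Ph u v w1 w2 r).eval 1).eval 0 = MvPolynomial.eval (fun i => u i + v i) r := by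
  have h : (((Polynomial.evalRingHom (0 : L)).comp (Polynomial.evalRingHom (1 : Polynomial L))).comp
      (Ph u v w1 w2)) = MvPolynomial.eval (fun i => u i + v i) := by
    refine MvPolynomial.ringHom_ext ?_ ?_
    · intro a
      simp [Ph]
    · intro i
      simp [Ph, pth]
  exact RingHom.congr_fun h r

theorem coeff_zero (u v w1 w2 : σ → L) (P : MvPolynomial σ L) :
    (Ph u v w1 w2 P).coeff 0 = Polynomial.C (MvPolynomial.eval u P) := by
  have h' : (Polynomial.constantCoeff.comp (Ph u v w1 w2)) =
      Polynomial.C.comp (MvPolynomial.eval u) := by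
    refine MvPolynomial.ringHom_ext ?_ ?_
    · intro a
      simp [Ph]
    · intro i
      simp [Ph]
  have e := RingHom.congr_fun h' P
  simp only [RingHom.comp_apply, Polynomial.constantCoeff_apply] at e
  exact e

variable [Fintype σ]

theorem dd_mul_X (u v : σ → L) (P : MvPolynomial σ L) (i : σ) :
    dd u v (P * MvPolynomial.X i) = dd u v P * u i + MvPolynomial.eval u P * v i := by
  classical
  unfold dd
  simp only [Derivation.leibniz, smul_eq_mul, map_add, map_mul, MvPolynomial.eval_X, add_mul,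
    Finset.sum_add_distrib, Finset.sum_mul]
  rw [add_comm]
  congr 1
  · refine Finset.sum_congr rfl fun j _ => ?_
    ring
  · rw [Finset.sum_eq_single i]
    · rw [MvPolynomial.pderiv_X_self, map_one, mul_one]
    · intro j _ hj
      rw [MvPolynomial.pderiv_X_of_ne (Ne.symm hj)]
      simp
    · intro h
      exact absurd (Finset.mem_univ i) h

theorem coeff_one (u v w1 w2 : σ → L) (P : MvPolynomial σ L) :
    (Ph u v w1 w2 P).coeff 1 = Polynomial.C (dd u v P) + (Polynomial.X * Polynomial.C (dd u w1 P) +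
      Polynomial.X ^ 2 * Polynomial.C (dd u w2 P)) := by
  induction P using MvPolynomial.induction_on with
  | C a =>
    rw [Ph_C, Polynomial.coeff_C_of_ne_zero one_ne_zero]
    simp [dd]
  | add p q hp hq =>
    have e : ∀ v, dd u v (p + q) = dd u v p + dd u v q := by
      intro v
      unfold dd
      simp only [map_add, add_mul, Finset.sum_add_distrib]
    rw [map_add, Polynomial.coeff_add, hp, hq, e, e, e]
    simp only [map_add]
    ring
  | mul_X p i hp =>
    have e0 := coeff_zero u v w1 w2 p
    rw [map_mul, Ph_X, mul_add, Polynomial.coeff_add, Polynomial.coeff_mul_C, hp,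
      ← mul_assoc, Polynomial.coeff_mul_C, ← zero_add 1, Polynomial.coeff_mul_X, e0,
      dd_mul_X, dd_mul_X, dd_mul_X]
    unfold pth
    simp only [map_add, map_mul]
    ring

/-- The abstract statement, with two special vectors. -/
theorem ns_abs2 [CharZero L] (A B E : MvPolynomial σ L) (u w1 w2 : σ → L) (e : L) (he : e ≠ 0)
    (hA : MvPolynomial.eval u A = 0) (hB : MvPolynomial.eval u B = 0)
    (hE : MvPolynomial.eval u E = 0)
    (hA1 : dd u w1 A = 0) (hB1 : dd u w1 B = 0) (hE1 : dd u w1 E = e)
    (hA2 : dd u w2 A = e) (hB2 : dd u w2 B = 0) (hE2 : dd u w2 E = 0)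
    (r0 r1 : MvPolynomial σ L) (hr : A * r0 ^ 2 - 2 * B * r0 * r1 + E * r1 ^ 2 = 0) :
    r0 = 0 ∧ r1 = 0 := by
  have main : ∀ v : σ → L, Ph u v w1 w2 r0 = 0 ∧ Ph u v w1 w2 r1 = 0 := by
    intro v
    refine descent (Ph u v w1 w2 A) (Ph u v w1 w2 B) (Ph u v w1 w2 E)
      (by rw [coeff_zero, hA, map_zero]) (by rw [coeff_zero, hB, map_zero])
      (by rw [coeff_zero, hE, map_zero]) ?_ _ _ ?_
    · intro s0 s1 hs
      rw [coeff_one, coeff_one, coeff_one, hA1, hB1, hE1, hA2, hB2, hE2] at hs
      have ha' : Polynomial.C e * Polynomial.C (dd u v A / e) = Polynomial.C (dd u v A) := by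
        rw [← map_mul, mul_div_cancel₀ _ he]
      have hb' : Polynomial.C e * Polynomial.C (dd u v B / e) = Polynomial.C (dd u v B) := by
        rw [← map_mul, mul_div_cancel₀ _ he]
      have hc' : Polynomial.C e * Polynomial.C (dd u v E / e) = Polynomial.C (dd u v E) := by
        rw [← map_mul, mul_div_cancel₀ _ he]
      have hCe : (Polynomial.C e : Polynomial L) ≠ 0 := fun h => he (Polynomial.C_eq_zero.1 h)
      refine quad_zero (dd u v A / e) (dd u v B / e) (dd u v E / e) s0 s1 ?_
      refine mul_left_cancel₀ hCe ?_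
      rw [mul_zero]
      simp only [map_zero, mul_zero, add_zero, zero_add] at hs
      linear_combination hs + s0 ^ 2 * ha' - 2 * s0 * s1 * hb' + s1 ^ 2 * hc'
    · have := congrArg (Ph u v w1 w2) hr
      simpa only [map_add, map_sub, map_mul, map_pow, map_ofNat, map_zero] using this
  have fin : ∀ r : MvPolynomial σ L, (∀ v, Ph u v w1 w2 r = 0) → r = 0 := by
    intro r hr
    refine MvPolynomial.funext fun x => ?_
    have e := Ph_eval u (fun i => x i - u i) w1 w2 r
    rw [hr, Polynomial.eval_zero, Polynomial.eval_zero] at e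
    rw [map_zero, e]
    congr 2
    funext i
    ring
  exact ⟨fin r0 fun v => (main v).1, fin r1 fun v => (main v).2⟩

theorem dd_lin (u : σ → L) (a : L) (v w : σ → L) (P : MvPolynomial σ L) :
    dd u (fun i => a * v i + w i) P = a * dd u v P + dd u w P := by
  unfold dd
  rw [Finset.mul_sum, ← Finset.sum_add_distrib]
  refine Finset.sum_congr rfl fun i _ => ?_
  ring

/-- The derivative along a line. -/
theorem dd_line (u v : σ → L) (P : MvPolynomial σ L) :
    ((MvPolynomial.eval₂ Polynomial.C (fun i => Polynomial.C (u i) + Polynomial.X *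
      Polynomial.C (v i)) P : Polynomial L).derivative).eval 0 = dd u v P := by
  induction P using MvPolynomial.induction_on with
  | C a => simp [dd]
  | add p q hp hq =>
    have e : dd u v (p + q) = dd u v p + dd u v q := by
      unfold dd
      simp only [map_add, add_mul, Finset.sum_add_distrib]
    rw [MvPolynomial.eval₂_add, Polynomial.derivative_add, Polynomial.eval_add, hp, hq, e]
  | mul_X p i hp =>
    have h0 : (MvPolynomial.eval₂ Polynomial.C (fun i => Polynomial.C (u i) + Polynomial.X *
        Polynomial.C (v i)) p : Polynomial L).eval 0 = MvPolynomial.eval u p := by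
      have h' : ((Polynomial.evalRingHom (0 : L)).comp (MvPolynomial.eval₂Hom Polynomial.C
          (fun i => Polynomial.C (u i) + Polynomial.X * Polynomial.C (v i)))) =
          MvPolynomial.eval u := by
        refine MvPolynomial.ringHom_ext ?_ ?_
        · intro a
          simp
        · intro i
          simp
      exact RingHom.congr_fun h' p
    rw [MvPolynomial.eval₂_mul, MvPolynomial.eval₂_X, Polynomial.derivative_mul,
      Polynomial.eval_add, Polynomial.eval_mul, Polynomial.eval_mul, hp, h0, dd_mul_X]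
    simp

/-- The abstract statement. -/
theorem ns_abs [CharZero L] (A B E : MvPolynomial σ L) (u : σ → L) (v : Fin 3 → σ → L)
    (z : Fin 3 → L)
    (hA : MvPolynomial.eval u A = 0) (hB : MvPolynomial.eval u B = 0)
    (hE : MvPolynomial.eval u E = 0) (hz : ∀ a b, a ≠ b → z a - z b ≠ 0)
    (q : Fin 3 → L → L) (hq : ∀ a t, q a t = dd u (v a) A * t ^ 2 + 2 * dd u (v a) B * t +
      dd u (v a) E)
    (h00 : q 0 (z 0) = 0) (h11 : q 1 (z 1) = 0) (h22 : q 2 (z 2) = 0) (h01 : q 0 (z 1) = 0)
    (h02 : q 0 (z 2) ≠ 0) (h10 : q 1 (z 0) ≠ 0) (h21 : q 2 (z 1) ≠ 0)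
    (r0 r1 : MvPolynomial σ L) (hr : A * r0 ^ 2 - 2 * B * r0 * r1 + E * r1 ^ 2 = 0) :
    r0 = 0 ∧ r1 = 0 := by
  have key : ∀ a b e : L, ∃ w : σ → L, dd u w A = a ∧ 2 * dd u w B = b ∧ dd u w E = e := by
    intro a b e
    set τ : Fin 3 → L := fun i => a * z i ^ 2 + b * z i + e with hτ
    set s2 := τ 1 / q 2 (z 1) with hs2
    set s1 := (τ 0 - s2 * q 2 (z 0)) / q 1 (z 0) with hs1
    set s0 := (τ 2 - s1 * q 1 (z 2)) / q 0 (z 2) with hs0
    set w : σ → L := fun i => s0 * v 0 i + (s1 * v 1 i + (s2 * v 2 i + 0)) with hw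
    have hlin : ∀ P, dd u w P = s0 * dd u (v 0) P + (s1 * dd u (v 1) P + (s2 * dd u (v 2) P +
        0)) := by
      intro P
      rw [hw, dd_lin, dd_lin, dd_lin]
      congr 3
      unfold dd
      simp
    have hv : ∀ t, dd u w A * t ^ 2 + 2 * dd u w B * t + dd u w E =
        s0 * q 0 t + (s1 * q 1 t + s2 * q 2 t) := by
      intro t
      rw [hlin, hlin, hlin, hq, hq, hq]
      ring
    have e0 : s0 * q 0 (z 0) + (s1 * q 1 (z 0) + s2 * q 2 (z 0)) = τ 0 := by
      rw [h00, hs1]
      field_simp
      ring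
    have e1 : s0 * q 0 (z 1) + (s1 * q 1 (z 1) + s2 * q 2 (z 1)) = τ 1 := by
      rw [h01, h11, hs2]
      field_simp
      ring
    have e2 : s0 * q 0 (z 2) + (s1 * q 1 (z 2) + s2 * q 2 (z 2)) = τ 2 := by
      rw [h22, hs0]
      field_simp
      ring
    rw [← hv] at e0 e1 e2
    obtain ⟨g1, g2, g3⟩ := Pool.Agent.Helper77.HN.quad_eq3 (a := dd u w A - a)
      (b := 2 * dd u w B - b) (c := dd u w E - e) (hz 0 1 (by decide)) (hz 0 2 (by decide))
      (hz 1 2 (by decide)) (by simp only [hτ] at e0; linear_combination e0)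
      (by simp only [hτ] at e1; linear_combination e1)
      (by simp only [hτ] at e2; linear_combination e2)
    exact ⟨w, sub_eq_zero.1 g1, sub_eq_zero.1 g2, sub_eq_zero.1 g3⟩
  obtain ⟨w1, a1, b1, c1⟩ := key 0 0 1
  obtain ⟨w2, a2, b2, c2⟩ := key 1 0 0
  exact ns_abs2 A B E u w1 w2 1 one_ne_zero hA hB hE a1
    ((mul_eq_zero.1 b1).resolve_left two_ne_zero) c1 a2
    ((mul_eq_zero.1 b2).resolve_left two_ne_zero) c2 r0 r1 hr

end Pool.Agent.Helper77.HK
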