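import Mathlib
import Pool.Agent.Helper77.HK.Chart
import Pool.Agent.Helper77.HK.NSAbs
import Pool.Agent.Helper82.HK.Diff

/-!
# `k + 1` factors: the general member is irreducible over the chart
-/

namespace Pool.Agent.Helper77.HK

open Pool.Agent.Helper64.HK MvPolynomial
open Pool.Agent.Helper28.HN (I aff)

variable {k m : ℕ} {a : Fin (k + 1) → Fin (m + 1)}

section dir

variable {σ : Type*} [Fintype σ] {L : Type*} [Field L]

theorem dd_add (u v : σ → L) (P Q : MvPolynomial σ L) :
    dd u v (P + Q) = dd u v P + dd u v Q := by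
  unfold dd
  simp only [map_add, add_mul, Finset.sum_add_distrib]

theorem dd_mul (u v : σ → L) (P Q : MvPolynomial σ L) :
    dd u v (P * Q) = dd u v P * eval u Q + eval u P * dd u v Q := by
  unfold dd
  simp only [Derivation.leibniz, smul_eq_mul, map_add, map_mul, add_mul,
    Finset.sum_add_distrib, Finset.sum_mul, Finset.mul_sum]
  rw [add_comm]
  congr 1 <;> exact Finset.sum_congr rfl fun j _ => by ring

theorem dd_C (u v : σ → L) (x : L) : dd u v (C x) = 0 := by
  simp [dd]

theorem dd_X (u v : σ → L) (i : σ) : dd u v (X i) = v i := by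
  have h := dd_mul_X u v 1 i
  rw [one_mul, map_one, one_mul, ← C_1, dd_C, zero_mul, zero_add] at h
  exact h

/-- The derivative as an additive map. -/
noncomputable def ddh (u v : σ → L) : MvPolynomial σ L →+ L where
  toFun := dd u v
  map_zero' := by rw [← C_0, dd_C]
  map_add' := dd_add u v

theorem ddh_apply (u v : σ → L) (P : MvPolynomial σ L) : ddh u v P = dd u v P := rfl

end dir

section good

variable {L : Type*} [Field L]

/-- The direction `v` in the factor `j`. -/
def dv (j : Fin k) (v : Fin (m + 1) → L) : Fin k × Fin (m + 1) → L :=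
  fun e => if e.1 = j then v e.2 else 0

/-- The derivative of the quadratic polynomial where it vanishes. -/
theorem D_dd_Fp (c : Ix a → L) (u : Fin k × Fin (m + 1) → L) (j : Fin k) (v : Fin (m + 1) → L)
    (z : L) (hF : Fh c (ct u) z = 0) :
    (Mx c (ct u)).det * dd u (dv j v) (Fp c z) = qh c j.succ (ct u) (Fin.cons 0 v) z := by
  have h := Pool.Agent.Helper82.HK.d_Fh (eval u) (ddh u (dv j v))
    (fun P Q => by simp only [ddh_apply, dd_mul])
    (fun e => C (c e)) (fun e => by rw [ddh_apply, dd_C]) j.succ (Fin.succ_ne_zero j)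
    (ct X) ?_ (C z) (by rw [ddh_apply, dd_C])
  · have h1 : (fun i => eval u (C (c i))) = c := by
      funext i
      rw [eval_C]
    have h2 : (fun l i => eval u ((ct X : Fin (k + 1) → I m →
        MvPolynomial (Fin k × Fin (m + 1)) L) l i)) = ct u := by
      rw [map_ct]
      congr 1
      funext e
      rw [eval_X]
    have h3 : (fun i => ddh u (dv j v) ((ct X : Fin (k + 1) → I m →
        MvPolynomial (Fin k × Fin (m + 1)) L) j.succ i)) = Fin.cons 0 v := by
      funext i
      refine Fin.cases ?_ (fun i => ?_) i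
      · rw [ddh_apply, Fin.cons_zero]
        simp only [ct, Fin.cons_succ, aff, Fin.cons_zero]
        rw [← C_1, dd_C]
      · rw [ddh_apply, Fin.cons_succ]
        simp only [ct, Fin.cons_succ, aff]
        rw [dd_X, dv, if_pos rfl]
    rw [h1, h2, h3, eval_C, hF, mul_zero, add_zero, ddh_apply] at h
    exact h
  · intro l hl i
    rw [ddh_apply]
    revert hl
    refine Fin.cases (fun _ => ?_) (fun l hl => ?_) l
    · simp only [ct, Fin.cons_zero]
      show dd u (dv j v) 0 = 0
      rw [← C_0, dd_C]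
    · have hl' : l ≠ j := fun h => hl (by rw [h])
      refine Fin.cases ?_ (fun i => ?_) i
      · simp only [ct, Fin.cons_succ, aff, Fin.cons_zero]
        rw [← C_1, dd_C]
      · simp only [ct, Fin.cons_succ, aff]
        rw [dd_X, dv, if_neg hl']

/-- The conditions which are used: three points over `u`, and directions over them in the factors
`(j i).succ`. -/
structure Good (c : Ix a → L) (u : Fin k × Fin (m + 1) → L) (j : Fin 3 → Fin k) (z : Fin 3 → L) :
    Prop where
  hD : (Mx c (ct u)).det ≠ 0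
  hA : Ah c (ct u) = 0
  hB : Bh c (ct u) = 0
  hC : Ch c (ct u) = 0
  hz : ∀ a b, a ≠ b → z a - z b ≠ 0
  h00 : qh c (j 0).succ (ct u) (xh c (j 0).succ (Xz c (ct u) (z 0))) (z 0) = 0
  h11 : qh c (j 1).succ (ct u) (xh c (j 1).succ (Xz c (ct u) (z 1))) (z 1) = 0
  h22 : qh c (j 2).succ (ct u) (xh c (j 2).succ (Xz c (ct u) (z 2))) (z 2) = 0
  h01 : qh c (j 0).succ (ct u) (xh c (j 0).succ (Xz c (ct u) (z 0))) (z 1) = 0
  h02 : qh c (j 0).succ (ct u) (xh c (j 0).succ (Xz c (ct u) (z 0))) (z 2) ≠ 0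
  h10 : qh c (j 1).succ (ct u) (xh c (j 1).succ (Xz c (ct u) (z 1))) (z 0) ≠ 0
  h21 : qh c (j 2).succ (ct u) (xh c (j 2).succ (Xz c (ct u) (z 2))) (z 1) ≠ 0

theorem ns_of_good [CharZero L] {c : Ix a → L} {u : Fin k × Fin (m + 1) → L} {j : Fin 3 → Fin k}
    {z : Fin 3 → L} (h : Good c u j z) : NS c := by
  have hF : ∀ w, Fh c (ct u) w = 0 := by
    intro w
    rw [Fh_eq, h.hA, h.hB, h.hC]
    ring
  set v : Fin 3 → Fin k × Fin (m + 1) → L :=
    fun i => dv (j i) (vh c (j i).succ (Xz c (ct u) (z i))) with hv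
  have key : ∀ i t, (Mx c (ct u)).det * (dd u (v i) (Ap c) * t ^ 2 +
      2 * dd u (v i) (Bp c) * t + dd u (v i) (Cp c)) =
      qh c (j i).succ (ct u) (xh c (j i).succ (Xz c (ct u) (z i))) t := by
    intro i t
    rw [xh, ← D_dd_Fp c u (j i) _ t (hF t), Fp_eq, dd_add, dd_add]
    have e1 : dd u (dv (j i) (vh c (j i).succ (Xz c (ct u) (z i)))) (Ap c * C t ^ 2) =
        dd u (v i) (Ap c) * t ^ 2 := by
      rw [dd_mul, ← C_pow, dd_C, eval_C, mul_zero, add_zero]
    have e2 : dd u (dv (j i) (vh c (j i).succ (Xz c (ct u) (z i)))) (2 * Bp c * C t) =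
        2 * dd u (v i) (Bp c) * t := by
      have h2 : (2 : MvPolynomial (Fin k × Fin (m + 1)) L) = C 2 := (map_ofNat C 2).symm
      rw [dd_mul, dd_C, eval_C, mul_zero, add_zero, h2, dd_mul, dd_C, eval_C, zero_mul, zero_add]
    rw [e1, e2]
  intro r0 r1 hr
  refine ns_abs (Ap c) (Bp c) (Cp c) u v z (by rw [eval_Ap, h.hA]) (by rw [eval_Bp, h.hB])
    (by rw [eval_Cp, h.hC]) h.hz
    (fun i t => dd u (v i) (Ap c) * t ^ 2 + 2 * dd u (v i) (Bp c) * t + dd u (v i) (Cp c))
    (fun _ _ => rfl) ?_ ?_ ?_ ?_ ?_ ?_ ?_ r0 r1 hr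
  · exact (mul_eq_zero.1 ((key 0 (z 0)).trans h.h00)).resolve_left h.hD
  · exact (mul_eq_zero.1 ((key 1 (z 1)).trans h.h11)).resolve_left h.hD
  · exact (mul_eq_zero.1 ((key 2 (z 2)).trans h.h22)).resolve_left h.hD
  · exact (mul_eq_zero.1 ((key 0 (z 1)).trans h.h01)).resolve_left h.hD
  · exact fun h0 => h.h02 (by rw [← key 0 (z 2), h0, mul_zero])
  · exact fun h0 => h.h10 (by rw [← key 1 (z 0), h0, mul_zero])
  · exact fun h0 => h.h21 (by rw [← key 2 (z 1), h0, mul_zero])

end good

end Pool.Agent.Helper77.HK
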