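import Mathlib
import Pool.Agent.Helper77.HK.NS
import Pool.Agent.Helper24.HK.Cfg
import Pool.Agent.Helper64.HK.Line

/-!
# `k + 1` factors: irreducibility over the chart from a configuration
-/

namespace Pool.Agent.Helper77.HK

open Pool.Agent.Helper64.HK Pool.Agent.Helper24.HK MvPolynomial
open Pool.Agent.Helper28.HN (I aff)

variable {k m : ℕ} {a : Fin (k + 1) → Fin (m + 1)}

section eqn

variable {S : Type*} [CommRing S] (c : Ix a → S) (s : Sel k m) (x : Un k m → S)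

theorem Eqn_S1 : Eqn c s x (.inl (s.S 1)) = Fh c (pt x) (x (.inr none)) := by
  have h : s.S 1 ≠ s.S 0 := fun h => absurd (s.hS h) (by decide)
  simp only [Eqn, if_neg h, if_true]

theorem Eqn_S2 : Eqn c s x (.inl (s.S 2)) = Ah c (pt x) := by
  have h0 : s.S 2 ≠ s.S 0 := fun h => absurd (s.hS h) (by decide)
  have h1 : s.S 2 ≠ s.S 1 := fun h => absurd (s.hS h) (by decide)
  simp only [Eqn, if_neg h0, if_neg h1, if_true]

theorem Eqn_S3 : Eqn c s x (.inl (s.S 3)) = Bh c (pt x) := by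
  have h0 : s.S 3 ≠ s.S 0 := fun h => absurd (s.hS h) (by decide)
  have h1 : s.S 3 ≠ s.S 1 := fun h => absurd (s.hS h) (by decide)
  have h2 : s.S 3 ≠ s.S 2 := fun h => absurd (s.hS h) (by decide)
  simp only [Eqn, if_neg h0, if_neg h1, if_neg h2, if_true]

theorem Eqn_S4 : Eqn c s x (.inl (s.S 4)) =
    qh c s.m'.1.succ (pt x) (xz c s x (some s.m')) (x (.inr (some s.j))) := by
  have h0 : s.S 4 ≠ s.S 0 := fun h => absurd (s.hS h) (by decide)
  have h1 : s.S 4 ≠ s.S 1 := fun h => absurd (s.hS h) (by decide)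
  have h2 : s.S 4 ≠ s.S 2 := fun h => absurd (s.hS h) (by decide)
  have h3 : s.S 4 ≠ s.S 3 := fun h => absurd (s.hS h) (by decide)
  simp only [Eqn, if_neg h0, if_neg h1, if_neg h2, if_neg h3, if_true]

end eqn

theorem good_of_cfg {L : Type*} [Field L] (c : Ix a → L) (s : Sel k m) (x : Un k m → L)
    (hE : ∀ i, Eqn c s x i = 0) (hP : Pp c s x ≠ 0) :
    Good c (fun q => x (.inl q)) ![s.m'.1, s.j.1, s.l.1]
      ![x (.inr (some s.m')), x (.inr (some s.j)), x (.inr (some s.l))] := by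
  unfold Pp at hP
  obtain ⟨hP, -⟩ := mul_ne_zero_iff.1 hP
  obtain ⟨hP, hq⟩ := mul_ne_zero_iff.1 hP
  obtain ⟨hP, -⟩ := mul_ne_zero_iff.1 hP
  obtain ⟨hP, -⟩ := mul_ne_zero_iff.1 hP
  obtain ⟨hP, -⟩ := mul_ne_zero_iff.1 hP
  obtain ⟨hP, -⟩ := mul_ne_zero_iff.1 hP
  obtain ⟨hD, hz⟩ := mul_ne_zero_iff.1 hP
  rw [Finset.prod_ne_zero_iff] at hz hq
  have hz' : ∀ b b' : Lt k m, b ≠ b' → x (.inr b) - x (.inr b') ≠ 0 := by
    intro b b' hb
    have := (Finset.prod_ne_zero_iff.1 (hz b (Finset.mem_univ b))) b' (Finset.mem_univ b')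
    rwa [if_neg hb] at this
  have hq' : ∀ b b' : Lt k m, b ≠ b' → ¬ (b = some s.m' ∧ b' = some s.j) →
      qh c (s.ty b).succ (pt x) (xz c s x b) (x (.inr b')) ≠ 0 := by
    intro b b' hb hb'
    have := (Finset.prod_ne_zero_iff.1 (hq b (Finset.mem_univ b))) b' (Finset.mem_univ b')
    rwa [if_neg (by tauto)] at this
  have hd : ∀ b : Lt k m, qh c (s.ty b).succ (pt x) (xz c s x b) (x (.inr b)) = 0 := by
    intro b
    have h : psh c (s.ty b).succ (pt x) (x (.inr b)) = 0 := hE (.inr b)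
    unfold xz
    rw [qh_psh', h, mul_zero]
  have nmj : some s.m' ≠ some s.j := fun h => s.hjm (Option.some.inj h).symm
  have nml : some s.m' ≠ some s.l := fun h => s.hml (Option.some.inj h)
  have nlj : some s.l ≠ some s.j := fun h => s.hlj (Option.some.inj h)
  have hA : Ah c (pt x) = 0 := by rw [← Eqn_S2]; exact hE _
  have hB : Bh c (pt x) = 0 := by rw [← Eqn_S3]; exact hE _
  have hF0 : Fh c (pt x) (x (.inr none)) = 0 := by rw [← Eqn_S1 c s x]; exact hE _
  have hC : Ch c (pt x) = 0 := by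
    rw [Fh_eq, hA, hB] at hF0
    linear_combination hF0
  refine ⟨hD, hA, hB, hC, ?_, hd (some s.m'), hd (some s.j), hd (some s.l), ?_,
    hq' (some s.m') (some s.l) nml fun h => nlj h.2,
    hq' (some s.j) (some s.m') nmj.symm fun h => nmj h.1.symm,
    hq' (some s.l) (some s.j) nlj fun h => nml h.1.symm⟩
  · intro a b hab
    fin_cases a <;> fin_cases b <;> first | exact absurd rfl hab | skip
    · exact hz' _ _ nmj
    · exact hz' _ _ nml
    · exact hz' _ _ nmj.symm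
    · exact hz' _ _ nlj.symm
    · exact hz' _ _ nml.symm
    · exact hz' _ _ nlj
  · have := Eqn_S4 c s x
    rw [hE] at this
    exact this.symm

theorem ns_of_cfg {L : Type*} [Field L] [CharZero L] (c : Ix a → L) (s : Sel k m)
    (x : Un k m → L) (hE : ∀ i, Eqn c s x i = 0) (hP : Pp c s x ≠ 0) : NS c :=
  ns_of_good (good_of_cfg c s x hE hP)

/-- For general `c` the equation over the chart has no rational root; from the existence of
configurations. -/
theorem exists_ns_of (hcfg : ∃ s : Sel k m, ∃ Δ : MvPolynomial (Ix a) ℚ, Δ ≠ 0 ∧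
    ∀ (K : Type) [Field K] [NumberField K] (c : Ix a → K), aeval c Δ ≠ 0 →
      ∃ (L : Type) (_ : Field L) (_ : NumberField L) (_ : Algebra K L) (x : Un k m → L),
        (∀ i, Eqn (fun e => algebraMap K L (c e)) s x i = 0) ∧
        Pp (fun e => algebraMap K L (c e)) s x ≠ 0 ∧
        (Matrix.of fun i j => eval x (pderiv j (Gs (fun e => algebraMap K L (c e)) s i))).det ≠ 0) :
    ∃ Δ : MvPolynomial (Ix a) ℚ, Δ ≠ 0 ∧
    ∀ (K : Type) [Field K] [NumberField K] (c : Ix a → K), aeval c Δ ≠ 0 →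
      NS c ∧ Dp c ≠ 0 := by
  obtain ⟨s, Δ, hΔ, h⟩ := hcfg
  refine ⟨Δ, hΔ, fun K _ _ c hc => ?_⟩
  obtain ⟨L, _, _, _, x, hE, hP, -⟩ := h K c hc
  have g := good_of_cfg _ s x hE hP
  exact ⟨ns_of_map (algebraMap K L) c (ns_of_good g), Dp_ne_of_map (algebraMap K L) c _ g.hD⟩

end Pool.Agent.Helper77.HK
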