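import Mathlib
import Pool.Agent.Helper47.HK.Norm

/-!
# `k + 1` factors: the chart ideal in natural variables, permutations of the factors

* `natI c`: the ideal of the complete intersection in the chart where all first coordinates are `1`,
  with the variables `X (j, l)`, `j` the factor.
* `pm σ`: the coefficients after a permutation `σ` of the factors: `Ef (c ∘ pm σ) i X` is
  `Ef c i (X ∘ σ.symm)`.
* `dom_factor`: no nonzero polynomial without the variables of the factor `r` is in `natI c`, if this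
  is so for `r = 0` after the factors `0` and `r` have been exchanged.
-/

set_option autoImplicit false

namespace Pool.Agent.Helper77.HK

open Pool.Agent.Helper64.HK Pool.Agent.Helper47.HK MvPolynomial
open Pool.Agent.Helper28.HN (I aff)

variable {k m : ℕ} {a : Fin (k + 1) → Fin (m + 1)}

section perm

variable (σ : Equiv.Perm (Fin (k + 1)))

/-- The second slots. -/
def sub (a : Fin (k + 1) → Fin (m + 1)) (σ : Equiv.Perm (Fin (k + 1))) (i : Fin (m + 1)) :
    {j // (a ∘ σ) j = i} ≃ {j // a j = i} :=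
  σ.subtypeEquiv fun _ => Iff.rfl

/-- The coefficients after a permutation of the factors. -/
def pm : Ix (a ∘ σ) → Ix a :=
  fun e => ⟨e.1, fun j => e.2.1 (σ.symm j), fun j => e.2.2 ((sub a σ e.1).symm j)⟩

theorem pm_injective : Function.Injective (pm (a := a) σ) := by
  rintro ⟨i, p, q⟩ ⟨i', p', q'⟩ h
  have h1 : i = i' := congrArg Sigma.fst h
  subst h1
  have h2 := eq_of_heq (Sigma.mk.inj h).2
  have h3 := congrArg Prod.fst h2
  have h4 := congrArg Prod.snd h2
  simp only at h3 h4
  have e3 : p = p' := by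
    funext j
    have := congrFun h3 (σ j)
    simpa using this
  have e4 : q = q' := by
    funext j
    have := congrFun h4 (sub a σ i j)
    simpa using this
  rw [e3, e4]

variable {S : Type*} [CommRing S]

theorem Ef_pm (c : Ix a → S) (i : Fin (m + 1)) (X : Fin (k + 1) → I m → S) :
    Ef (fun e => c (pm σ e)) i X = Ef c i fun j => X (σ.symm j) := by
  unfold Ef Mf
  refine Fintype.sum_equiv (Equiv.arrowCongr σ (Equiv.refl (I m))) _ _ fun p => ?_
  refine Fintype.sum_equiv (Equiv.arrowCongr (sub a σ i) (Equiv.refl (I m))) _ _ fun q => ?_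
  have e1 := Equiv.prod_comp σ.symm fun j => X j (p j)
  have e2 := Equiv.prod_comp (sub a σ i).symm fun j => X j.1 (q j)
  rw [← e1, ← e2]
  rfl

theorem onX_pm (c : Ix a → S) (X : Fin (k + 1) → I m → S) :
    OnX (fun e => c (pm σ e)) X ↔ OnX c fun j => X (σ.symm j) := by
  unfold OnX
  simp only [Ef_pm]

end perm

section nat

variable {K : Type*} [CommRing K]

/-- The ideal of the complete intersection in the chart where all first coordinates are `1`. -/
noncomputable def natI (c : Ix a → K) : Ideal (MvPolynomial (Fin (k + 1) × Fin (m + 1)) K) :=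
  Ideal.span (Set.range fun i : Fin (m + 1) => Ef (fun e => C (c e)) i
    fun j => aff fun l => (X (j, l) : MvPolynomial (Fin (k + 1) × Fin (m + 1)) K))

/-- The variables of the factors `t` and of the factor `0` together. -/
def vK (k m : ℕ) : (Fin k × Fin (m + 1)) ⊕ Fin (m + 1) ≃ Fin (k + 1) × Fin (m + 1) where
  toFun := Sum.elim (fun e => (e.1.succ, e.2)) fun i => (0, i)
  invFun e := Fin.cases (motive := fun _ => (Fin k × Fin (m + 1)) ⊕ Fin (m + 1)) (.inr e.2)
    (fun j => .inl (j, e.2)) e.1
  left_inv := by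
    rintro (⟨j, i⟩ | i) <;> rfl
  right_inv := by
    rintro ⟨j, i⟩
    refine Fin.cases ?_ (fun j => ?_) j <;> rfl

theorem vK_inl (j : Fin k) (i : Fin (m + 1)) : vK k m (.inl (j, i)) = (j.succ, i) := rfl

theorem vK_inr (i : Fin (m + 1)) : vK k m (.inr i) = (0, i) := rfl

theorem pc_succ {S : Type*} [CommRing S] (u : Fin k × Fin (m + 1) → S) (v : Fin (m + 1) → S)
    (j : Fin k) : pc u v j.succ = aff fun i => u (j, i) := rfl

theorem rename_c {σ τ : Type*} (f : σ → τ) (c : Ix a → K) :
    (fun e => (rename f : MvPolynomial σ K →ₐ[K] MvPolynomial τ K).toRingHom (C (c e))) =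
      fun e => C (c e) := by
  funext e
  exact rename_C f (c e)

theorem natI_eq (c : Ix a → K) : natI c = (chartIdeal c).map
    (rename (vK k m) : MvPolynomial ((Fin k × Fin (m + 1)) ⊕ Fin (m + 1)) K →ₐ[K] _) := by
  rw [natI, chartIdeal, Ideal.map_span, ← Set.range_comp]
  congr 1
  congr 1
  funext i
  have h := map_Ef (fun e => C (c e)) (rename (vK k m) :
    MvPolynomial ((Fin k × Fin (m + 1)) ⊕ Fin (m + 1)) K →ₐ[K] _).toRingHom i
    (pc (fun p => (X (.inl p) : MvPolynomial ((Fin k × Fin (m + 1)) ⊕ Fin (m + 1)) K))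
        fun i => X (.inr i))
  rw [rename_c, map_pc] at h
  refine Eq.trans ?_ h.symm
  congr 1
  funext j
  refine Fin.cases ?_ (fun j => ?_) j
  · rw [pc_zero]
    congr 1
    funext l
    exact (rename_X (R := K) (vK k m) (.inr l)).symm
  · rw [pc_succ]
    congr 1
    funext l
    exact (rename_X (R := K) (vK k m) (.inl (j, l))).symm

/-- The permutation of the variables. -/
def pv (m : ℕ) (σ : Equiv.Perm (Fin (k + 1))) :
    Fin (k + 1) × Fin (m + 1) ≃ Fin (k + 1) × Fin (m + 1) :=
  Equiv.prodCongr σ (Equiv.refl _)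

theorem natI_pm (σ : Equiv.Perm (Fin (k + 1))) (c : Ix a → K) :
    natI (fun e => c (pm σ e)) = (natI c).map
      (rename (pv m σ.symm) : MvPolynomial (Fin (k + 1) × Fin (m + 1)) K →ₐ[K] _) := by
  rw [natI, natI, Ideal.map_span, ← Set.range_comp]
  congr 1
  congr 1
  funext i
  have h := map_Ef (fun e => C (c e)) (rename (pv m σ.symm) :
    MvPolynomial (Fin (k + 1) × Fin (m + 1)) K →ₐ[K] _).toRingHom i
    (fun j => aff fun l => (X (j, l) : MvPolynomial (Fin (k + 1) × Fin (m + 1)) K))
  rw [rename_c] at h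
  refine Eq.trans ?_ h.symm
  rw [Ef_pm σ fun e => C (c e)]
  congr 1
  funext j
  have h2 := map_aff (rename (pv m σ.symm) :
    MvPolynomial (Fin (k + 1) × Fin (m + 1)) K →ₐ[K] MvPolynomial (Fin (k + 1) × Fin (m + 1)) K
    ).toRingHom fun l => (X (j, l) : MvPolynomial (Fin (k + 1) × Fin (m + 1)) K)
  refine Eq.trans ?_ h2.symm
  congr 1
  funext l
  exact (rename_X (pv m σ.symm) (j, l)).symm

end nat

section dom

variable {K : Type*} [Field K]

/-- A polynomial without the variables of the factor `r` in the ideal is zero. -/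
theorem dom_factor {c : Ix a → K} (r : Fin (k + 1))
    (h : ∀ Φ : MvPolynomial (Fin k × Fin (m + 1)) K,
      rename Sum.inl Φ ∈ chartIdeal (fun e => c (pm (Equiv.swap 0 r) e)) → Φ = 0)
    (Φ : MvPolynomial (Fin (k + 1) × Fin (m + 1)) K) (hΦ : Φ ∈ natI c)
    (hv : ∀ v ∈ Φ.vars, v.1 ≠ r) : Φ = 0 := by
  set σ : Equiv.Perm (Fin (k + 1)) := Equiv.swap 0 r with hσ
  set g : (Fin k × Fin (m + 1)) ⊕ Fin (m + 1) → Fin (k + 1) × Fin (m + 1) :=
    fun e => pv m σ (vK k m e) with hg
  have hgi : Function.Injective g := (pv m σ).injective.comp (vK k m).injective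
  obtain ⟨Ψ, hΨ⟩ : ∃ Ψ : MvPolynomial (Fin k × Fin (m + 1)) K,
      rename (fun e => g (.inl e)) Ψ = Φ := by
    refine exists_rename_eq_of_vars_subset_range Φ (fun e => g (.inl e))
      (hgi.comp Sum.inl_injective) ?_
    intro v hvv
    have hv1 : v.1 ≠ r := hv v hvv
    have h1 : σ v.1 ≠ 0 := by
      intro h0
      apply hv1
      have := congrArg σ h0
      rw [hσ, Equiv.swap_apply_self, Equiv.swap_apply_left] at this
      exact this
    obtain ⟨j, hj⟩ := Fin.exists_succ_eq.2 h1
    refine ⟨(j, v.2), ?_⟩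
    show (σ j.succ, v.2) = v
    rw [hj, hσ, Equiv.swap_apply_self]
  have hmem : rename Sum.inl Ψ ∈ chartIdeal (fun e => c (pm σ e)) := by
    have e1 : rename (pv m σ.symm) Φ ∈ natI (fun e => c (pm σ e)) := by
      rw [natI_pm]
      exact Ideal.mem_map_of_mem _ hΦ
    have e2 : rename (pv m σ.symm) Φ = rename (vK k m) (rename Sum.inl Ψ) := by
      have e3 : (pv m σ.symm ∘ fun e => g (.inl e)) = vK k m ∘ Sum.inl := by
        funext ⟨j, l⟩
        show (σ.symm (σ j.succ), l) = (j.succ, l)
        rw [Equiv.symm_apply_apply]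
      rw [← hΨ, rename_rename, rename_rename, e3]
    rw [e2, natI_eq] at e1
    have e3 := (Ideal.mem_map_of_equiv (renameEquiv K (vK k m)).toRingEquiv
      (rename (vK k m) (rename Sum.inl Ψ) : MvPolynomial (Fin (k + 1) × Fin (m + 1)) K)).1 e1
    obtain ⟨y, hy, hy2⟩ := e3
    have e4 : y = rename Sum.inl Ψ := rename_injective _ (vK k m).injective hy2
    rwa [e4] at hy
  rw [← hΨ, h Ψ hmem, map_zero]

end dom

end Pool.Agent.Helper77.HK
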